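import Pool.Agent.P.MP_0ad054_nt.MW.Fin
import Pool.Agent.P.MP_0ad054_nt.Clu.Defs

/-! Clusters of primes in short windows and residue classes. -/

namespace Pool.Agent.P.MP_0ad054_nt.MW

open Finset Filter Pool.Agent.P.MP_746f10_nt Pool.Agent.P.MP_746f10_nt.Cel
  Pool.Agent.P.MP_0ad054_nt.Sun

/-- many primes among the values of a normalised system, for many `n` in a window; the exponent
does not depend on the system -/
def S_MayU : Prop :=
  ∀ m : ℕ, ∃ k K j : ℕ, 0 < k ∧ ∀ (a b : Fin k → ℕ) (v : ℕ), Nrm a b K v → ∀ B : ℕ,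
    ∃ N0 : ℕ, ∀ N : ℕ, N0 ≤ N → ∀ x X : ℕ, N / LL N ^ B ≤ X → N / LL N ^ B ≤ x →
      x + X ≤ 16 * N → X / LL N ^ j ≤ ((Ico x (x + X)).filter (fun n =>
        m < (univ.filter (fun l => (a l * n + b l).Prime)).card)).card

/-- many primes among the values of a normalised system, for many `n` in a window -/
def S_MayN : Prop :=
  ∀ m : ℕ, ∃ k K : ℕ, 0 < k ∧ ∀ (a b : Fin k → ℕ) (v : ℕ), Nrm a b K v → ∃ j : ℕ, ∀ B : ℕ,
    ∃ N0 : ℕ, ∀ N : ℕ, N0 ≤ N → ∀ x X : ℕ, N / LL N ^ B ≤ X → N / LL N ^ B ≤ x →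
      x + X ≤ 16 * N → X / LL N ^ j ≤ ((Ico x (x + X)).filter (fun n =>
        m < (univ.filter (fun l => (a l * n + b l).Prime)).card)).card

theorem mayU : S_MayU := by
  intro m
  obtain ⟨k, K, g, j, hk, h⟩ := winN m
  refine ⟨k, K, j, hk, fun a b v hN B => ?_⟩
  have hv : 0 < v := (hN.pos ⟨0, hk⟩).trans_le (hN.le _)
  obtain ⟨w0, hw0⟩ := eventually_atTop.1 (((h a b v (B + 1) hN).and
    (Fin'.ev_log (2 ^ (g + 2) * (17 * v) * (g + 3) ^ B + 1))).and
    ((Fin'.ev_pow 1 (B + 1)).and (eventually_ge_atTop 2)))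
  refine ⟨w0 ^ (g + 2) + 17 * v, fun N hN0 x X hX hx hxX => ?_⟩
  have hex : 17 * v * N ≤ N ^ (g + 2) := by
    calc 17 * v * N ≤ N * N := Nat.mul_le_mul_right _ (by omega)
      _ = N ^ 2 := (sq N).symm
      _ ≤ _ := Nat.pow_le_pow_right (by omega) (by omega)
  obtain ⟨w, h1, h2, h3⟩ : ∃ w, 17 * v * N ≤ w ^ (g + 2) ∧ w ≤ N ∧
      ∀ y < w, y ^ (g + 2) < 17 * v * N := by
    have h0 : ∃ w, 17 * v * N ≤ w ^ (g + 2) := ⟨N, hex⟩
    exact ⟨Nat.find h0, Nat.find_spec h0, Nat.find_min' h0 hex,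
      fun y hy => not_le.1 (Nat.find_min h0 hy)⟩
  have h4 : N ≤ w ^ (g + 2) := (Nat.le_mul_of_pos_left N (by omega)).trans h1
  obtain ⟨⟨a1, a2⟩, a3, a4⟩ := hw0 w ((Nat.pow_le_pow_iff_left (n := g + 2) (by omega)).1 (by omega))
  have h5 : w ^ (g + 2) ≤ 2 ^ (g + 2) * (17 * v) * N := by
    calc w ^ (g + 2) ≤ (2 * (w - 1)) ^ (g + 2) := Nat.pow_le_pow_left (by omega) _
      _ ≤ _ := by
        rw [mul_pow, mul_assoc]
        exact Nat.mul_le_mul_left _ (h3 (w - 1) (by omega)).le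
  have hw : (2 : ℝ) ≤ w := by exact_mod_cast a4
  have hN' : (w : ℝ) ≤ N := by exact_mod_cast h2
  have c0 : (0 : ℝ) ≤ 2 ^ (g + 2) * (17 * v) * (g + 3) ^ B := by positivity
  have lw : 1 ≤ Real.log w := by linarith
  have l1 : Real.log w ≤ LL N := by
    have := Real.log_le_log (by linarith) hN'
    unfold LL; linarith
  have l2 : LL N ≤ (g + 3) * Real.log w := by
    have := Real.log_le_log (by linarith)
      (show (N : ℝ) ≤ (w : ℝ) ^ (g + 2) by exact_mod_cast h4)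
    rw [Real.log_pow] at this
    push_cast at this
    unfold LL; linarith
  have l0 : 0 < LL N := by linarith
  have key : (w : ℝ) ^ (g + 2) / Real.log w ^ (B + 1) ≤ N / LL N ^ B := by
    rw [div_le_div_iff₀ (by positivity) (by positivity)]
    calc _ ≤ (2 ^ (g + 2) * (17 * v) * N : ℝ) * ((g + 3) * Real.log w) ^ B := by
          gcongr; exact_mod_cast h5
      _ = N * (2 ^ (g + 2) * (17 * v) * (g + 3) ^ B * Real.log w ^ B) := by rw [mul_pow]; ring
      _ ≤ _ := by rw [pow_succ' _ B]; gcongr; linarith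
  refine le_trans (by gcongr) (a1 x X ?_ (key.trans hX) fun l => ?_)
  · have : (w : ℝ) ^ (g + 1) ≤ x := by
      refine le_trans ?_ (key.trans hx)
      rw [le_div_iff₀ (by positivity), pow_succ _ (g + 1)]
      rw [one_mul] at a3
      gcongr
    exact lt_of_lt_of_le (Nat.pow_lt_pow_right (by omega) (Nat.lt_succ_self g))
      (by exact_mod_cast this)
  · have b1 := Nat.mul_le_mul (hN.le l) hxX
    have b2 := (hN.lt l).le.trans (hN.le l)
    have b3 : v ≤ v * N := Nat.le_mul_of_pos_right _ (by omega)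
    refine le_trans ?_ h1
    nlinarith

theorem mayN : S_MayN := fun m => by
  obtain ⟨k, K, j, hk, h⟩ := mayU m
  exact ⟨k, K, hk, fun a b v hN => ⟨j, h a b v hN⟩⟩

lemma nrm {k K P c : ℕ} (hP : ∀ p, p.Prime → p ≤ K + k → p ∣ P) (hk : k ≤ P) (hc : c < P)
    (hcP : c.Coprime P) : Nrm (fun _ : Fin k => P * P) (fun l => c + l * P) K (P * P) := by
  have h0 : ∀ l : ℕ, P.Coprime (c + l * P) := fun l => by
    rw [Nat.coprime_add_mul_right_right]; exact hcP.symm
  refine ⟨fun l => ?_, fun _ => le_rfl, fun l => (h0 l).mul_left (h0 l), fun _ _ _ _ h => h,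
    fun p _ hp h => (hP p hp (by omega)).mul_right _, fun p n l l' hp h1 h2 => ?_⟩
  · have := Nat.mul_le_mul_right P (show l + 1 ≤ P from l.2.trans_le hk)
    nlinarith
  have h3 : ¬ p ∣ P := fun h => hp.one_lt.ne' (Nat.eq_one_of_dvd_coprimes (h0 l) h
    ((Nat.dvd_add_right ((h.mul_right P).mul_right n)).1 h1))
  have h4 : (p : ℤ) ∣ ((l : ℕ) - (l' : ℕ)) * P := by
    have := dvd_sub (Int.natCast_dvd_natCast.2 h1) (Int.natCast_dvd_natCast.2 h2)
    push_cast at this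
    rwa [show (P : ℤ) * P * n + (c + (l : ℕ) * P) - (P * P * n + (c + (l' : ℕ) * P)) =
      ((l : ℕ) - (l' : ℕ)) * P by ring] at this
  have h5 := ((Nat.prime_iff_prime_int.1 hp).dvd_or_dvd h4).resolve_right
    fun h => h3 (Int.natCast_dvd_natCast.1 h)
  have h6 : K + k < p := not_le.1 fun h => h3 (hP p hp h)
  have h7 := Int.eq_zero_of_abs_lt_dvd h5 (by
    have := l.2; have := l'.2
    rw [abs_lt]; constructor <;> omega)
  exact Fin.ext (by omega)

lemma exists_top {m k P c n : ℕ} (hP : 0 < P)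
    (h : m < (univ.filter fun l : Fin k => (P * P * n + (c + l * P)).Prime).card) :
    ∃ l : Fin k, (P * P * n + (c + l * P)).Prime ∧ m ≤ ((Ico (P * P * n + (c + l * P) - k * P)
      (P * P * n + (c + l * P))).filter Nat.Prime).card := by
  set S := univ.filter fun l : Fin k => (P * P * n + (c + l * P)).Prime
  have hS : S.Nonempty := card_pos.1 (by omega)
  have h1 := S.max'_mem hS
  refine ⟨S.max' hS, (mem_filter.1 h1).2, ?_⟩
  refine le_trans (show m ≤ (S.erase (S.max' hS)).card by rw [card_erase_of_mem h1]; omega)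
    (card_le_card_of_injOn (fun l => P * P * n + (c + l * P)) (fun l hl => ?_) fun l _ l' _ e => ?_)
  · have h2 := mem_erase.1 (mem_coe.1 hl)
    have h3 : (l : ℕ) < S.max' hS := (lt_of_le_of_ne (S.le_max' l h2.2) h2.1 : l < S.max' hS)
    have h4 := Nat.mul_lt_mul_of_pos_right h3 hP
    have h5 := Nat.mul_le_mul_right P (S.max' hS).2.le
    refine mem_coe.2 (mem_filter.2 ⟨mem_Ico.2 ⟨?_, ?_⟩, (mem_filter.1 h2.2).2⟩) <;>
      beta_reduce <;> omega
  · exact Fin.ext (Nat.eq_of_mul_eq_mul_right hP (by simpa using e))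

theorem may_all : Clu.S_May := by
  intro m W hW
  obtain ⟨k, K, j, hk, h⟩ := mayU m
  obtain ⟨P, hP⟩ : ∃ P, P = (K + k).factorial * W := ⟨_, rfl⟩
  have hP1 : ∀ p, p.Prime → p ≤ K + k → p ∣ P := fun p hp h =>
    hP ▸ (hp.dvd_factorial.2 h).mul_right _
  have hkP : k ≤ P := hP ▸ ((Nat.le_add_left k K).trans (Nat.self_le_factorial _)).trans
    (Nat.le_mul_of_pos_right _ hW)
  have hP0 : 0 < P := by omega
  refine ⟨k * P, j + 1, fun B => ?_⟩
  have h1 : ∀ᶠ N : ℕ in atTop, ∀ c ∈ (range P).filter (fun c => c.Coprime P), ∀ x X : ℕ,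
      N / LL N ^ (B + 1) ≤ X → N / LL N ^ (B + 1) ≤ x → x + X ≤ 16 * N → X / LL N ^ j ≤
      ((Ico x (x + X)).filter (fun n =>
        m < (univ.filter (fun l : Fin k => (P * P * n + (c + l * P)).Prime)).card)).card :=
    (eventually_all_finset _).2 fun c hc => eventually_atTop.2
      (h _ _ _ (nrm hP1 hkP (mem_range.1 (mem_filter.1 hc).1) (mem_filter.1 hc).2) (B + 1))
  obtain ⟨N0, hN0⟩ := eventually_atTop.1 ((h1.and (Fin'.ev_log (2 * (P * P : ℕ) + 1))).and
    (Fin'.ev_pow (6 * (P * P : ℕ) * 2 ^ B) B))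
  refine ⟨N0, fun N hN a ha x r hr hrx hx => ?_⟩
  obtain ⟨⟨a1, a2⟩, a3⟩ := hN0 N hN
  obtain ⟨q, q1, q2, q3⟩ := Nat.forall_exists_prime_gt_and_zmodEq P hW.ne' ha
  have hc : (q % P).Coprime P := by
    rw [Nat.Coprime, ← Nat.gcd_rec]
    exact (Nat.coprime_of_lt_prime hP0.ne' q1 q2).symm
  have hcW : (W : ℤ) ∣ (q % P : ℕ) - a := by
    have e : ((q % P : ℕ) : ℤ) - a = -(a - q) - P * (q / P : ℕ) := by
      have := Nat.mod_add_div q P
      have : ((q % P : ℕ) : ℤ) + P * (q / P : ℕ) = q := by exact_mod_cast this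
      linarith
    rw [e]
    exact dvd_sub q3.dvd.neg_right (Dvd.dvd.mul_right (by rw [hP]; simp) _)
  have hlt := Nat.mod_lt q hP0
  generalize q % P = c at hc hcW hlt
  obtain ⟨A, hA⟩ : ∃ A, A = P * P := ⟨_, rfl⟩
  have hA0 : 0 < A := hA ▸ Nat.mul_pos hP0 hP0
  have hA' : (0 : ℝ) < A := by exact_mod_cast hA0
  rw [← hA] at a2 a3
  have l1 : 2 * A ≤ LL N := by unfold LL; linarith
  have l0 : 0 < LL N := by linarith
  have r6 : 6 * A ≤ r := by
    have : (6 * A : ℝ) ≤ r := by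
      refine le_trans ?_ hr
      rw [le_div_iff₀ (by positivity)]
      refine le_trans ?_ a3
      rw [mul_assoc (6 * A : ℝ), ← mul_pow]
      gcongr
      unfold LL; linarith
    exact_mod_cast this
  have d1 := Nat.div_add_mod r A
  have d2 := Nat.mod_lt r hA0
  have d3 := Nat.div_add_mod x A
  have d4 := Nat.mod_lt x hA0
  have d5 : 6 ≤ r / A := (Nat.le_div_iff_mul_le hA0).2 r6
  have d6 : r / A ≤ x / A := Nat.div_le_div_right hrx
  obtain ⟨X, hX⟩ : ∃ X, r / A = X + 2 := ⟨r / A - 2, by omega⟩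
  generalize x / A = y at d3 d6
  rw [hX] at d1 d5 d6
  have e1 : (r : ℝ) / LL N ≤ X := by
    rw [div_le_iff₀ l0]
    have : r ≤ X * (2 * A) := by nlinarith
    have : (r : ℝ) ≤ X * (2 * A) := by exact_mod_cast this
    exact this.trans (by gcongr)
  have e2 : N / LL N ^ (B + 1) ≤ X := by
    rw [pow_succ, ← div_div]
    exact le_trans (by gcongr) e1
  have e3 : A * (y + 1 + X) + A ≤ x + r := by
    rw [show A * (y + 1 + X) + A = A * y + A * (X + 2) by ring]; omega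
  have e4 := a1 c (mem_filter.2 ⟨mem_range.2 hlt, hc⟩) (y + 1) X e2
    (e2.trans (by exact_mod_cast (by omega : X ≤ y + 1)))
    (by have := Nat.le_mul_of_pos_left (y + 1 + X) hA0; omega)
  rw [pow_succ', ← div_div]
  refine le_trans (by gcongr) (e4.trans ?_)
  refine Nat.cast_le.2 (le_trans (card_le_card fun n hn => ?_) (card_image_le (f := (· / A))))
  obtain ⟨n1, n2⟩ := mem_filter.1 hn
  obtain ⟨l, b1, b2⟩ := exists_top hP0 n2
  have b3 : c + l * P < A := hA ▸ (nrm hP1 hkP hlt hc).lt l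
  rw [← hA] at b1 b2
  have b4 := Nat.mul_le_mul_left A (mem_Ico.1 n1).1
  have b5 := Nat.mul_le_mul_left A (show n + 1 ≤ _ from (mem_Ico.1 n1).2)
  rw [mul_add_one] at b4 b5
  refine mem_image.2 ⟨A * n + (c + l * P), mem_filter.2 ⟨mem_Ico.2 ⟨by omega, by omega⟩,
    b1, b2, ?_⟩, ?_⟩
  · have e : ((A * n + (c + l * P) : ℕ) : ℤ) - a = (c - a) + P * (P * n + (l : ℕ)) := by
      rw [hA]; push_cast; ring
    rw [e]
    exact dvd_add hcW (Dvd.dvd.mul_right (by rw [hP]; simp) _)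
  · rw [Nat.mul_add_div hA0, Nat.div_eq_of_lt b3, add_zero]

end Pool.Agent.P.MP_0ad054_nt.MW
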