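import Pool.Agent.P.MP_746f10_nt.Cel.Mst
import Pool.Agent.P.MP_746f10_nt.Cel.Fin
import Pool.Agent.P.MP_746f10_nt.Cel.Err

/-! The sieve sums of Maynard's method in a window. -/

set_option linter.unusedSectionVars false

namespace Pool.Agent.P.MP_0ad054_nt.MW

open Finset Pool.Agent.P.MP_746f10_nt Pool.Agent.P.MP_746f10_nt.Cel

variable {ι : Type} [Fintype ι] [DecidableEq ι]

/-- the hypotheses for the window of length `M` that starts at `N` -/
structure ScW (a b : ι → ℕ) (K0 v k w s M1 L u N M : ℕ) (ε Θ η : ℝ) : Prop where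
  hN : Nrm a b K0 v
  hk : Fintype.card ι = k
  hk3 : 3 ≤ k
  hK : 2 * (k + 3) ≤ K0
  hvw : v ≤ w
  hw : 3 ≤ w
  hs : 1 ≤ s
  hM : 1 ≤ M1
  hL : L = s + 2 * (s * M1)
  hew : 3 * (2 * (s * M1)) ≤ w
  hε : 0 ≤ ε
  hΘ : Th w (w ^ (s * M1)) ≤ Θ
  hη : 0 ≤ η
  hδ : Θ ^ (5 * k + 8) * (3 * ε + 10 * (2 * (s * M1) : ℕ) / w + 20 * (k : ℝ) ^ 2 / w) ≤ η
  hlo : w ^ (s * M1) < N
  hhi : ∀ l, a l * (N + M) + b l ≤ w ^ (u + 1)
  hM2 : w ^ (2 * s) ≤ M
  hE0 : Θ ^ (5 * k + 8) * ∑ T ∈ lev (GP a (w ^ (s * M1))) (w ^ L), zc k ^ T.card ≤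
    η * (M * Vk a w)
  hE1 : ∀ x, ∃ E : Finset ℕ → ℝ, (∀ T ∈ lev (GP a (w ^ (s * M1))) (w ^ L), ∀ c : ℕ,
      (∀ p ∈ T, ¬ p ∣ a x * c + b x) →
      |∑ n ∈ Ico N (N + M), th (a x * n + b x) * (if n ≡ c [MOD ∏ p ∈ T, p] then 1 else 0) -
        (M : ℝ) * (∏ p ∈ (a x).primeFactors, (p : ℝ) / (p - 1)) *
          ∏ p ∈ T, (p : ℝ) / (p - 1) / p| ≤ E T) ∧ (∀ T, 0 ≤ E T) ∧
    Θ ^ (5 * k + 8) * ∑ T ∈ lev (GP a (w ^ (s * M1))) (w ^ L), zc k ^ T.card * E T ≤
      η * (M * Vk a w)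

lemma sum_ev_le {a b : ι → ℕ} {T : Finset ℕ} (hT : ∀ p ∈ T, GoodP a b p) (N M : ℕ) :
    ∑ n ∈ Ico N (N + M), ∏ p ∈ T, ev a b univ p n ≤
      (Fintype.card ι : ℝ) ^ T.card * (M * ∏ p ∈ T, 1 / (p : ℝ) + 1) := by
  have hq : 0 < ∏ p ∈ T, p := prod_pos fun p hp => (hT p hp).prime.pos
  have h := Mst.expand (Ico N (N + M)) (fun _ => 1) (fun n => ∏ p ∈ T, ev a b univ p n) hq
    fun c => prod_congr rfl fun p hp =>
      ev_of_modEq univ ((Nat.mod_modEq c _).of_dvd (dvd_prod_of_mem _ hp))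
  simp only [one_mul] at h
  rw [h]
  calc _ ≤ ∑ c ∈ range (∏ p ∈ T, p), (∏ p ∈ T, ev a b univ p c) *
        (M * ∏ p ∈ T, 1 / (p : ℝ) + 1) := by
        refine sum_le_sum fun c _ => mul_le_mul_of_nonneg_left ?_
          (prod_nonneg fun p _ => ev_nonneg _ _ _)
        have c1 := (abs_le.1 (count_class hq c (A := N) (B := N + M) (by omega))).2
        rw [show (((N + M : ℕ) : ℝ) - N) = M by push_cast; ring] at c1
        rw [Err.prod_inv_eq, mul_one_div]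
        linarith
    _ = _ := by
        rw [← sum_mul, sum_range_prod (fun p hp => (hT p hp).prime) _ fun p c => ev_mod _ _ _,
          prod_congr rfl fun p hp => (hT p hp).sum_ev univ, prod_const, card_univ]

lemma U_sq_le {a b : ι → ℕ} {P : Finset ℕ} (hP : ∀ p ∈ P, p.Prime) {D : ℕ} {κ ε : ℝ}
    (sv : SieveW P D κ ε) (n : ℕ) :
    sv.U (fun p => ev a b univ p n) ^ 2 ≤
      ∑ V ∈ lev P (D ^ 2), (4 : ℝ) ^ V.card * ∏ p ∈ V, ev a b univ p n := by
  classical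
  set g : Finset ℕ → ℝ := fun V => ∏ p ∈ V, ev a b univ p n with hg
  have hg0 : ∀ V, 0 ≤ g V := fun V => prod_nonneg fun p _ => ev_nonneg _ _ _
  have hu : ∀ S T, g S * g T = g (S ∪ T) := fun S T => by
    have h1 : g (S ∪ T) * g (S ∩ T) = g S * g T := prod_union_inter
    by_cases h0 : g (S ∪ T) = 0
    · rw [← h1, h0, zero_mul]
    · rw [← h1, show g (S ∩ T) = 1 from prod_eq_one fun p hp => (ev_01 _ _ _).resolve_left
        (prod_ne_zero_iff.1 h0 p (mem_union_left _ (mem_inter.1 hp).1)), mul_one]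
  set 𝓘 := P.powerset ×ˢ P.powerset with h𝓘
  calc _ = ∑ x ∈ 𝓘, sv.up x.1 * sv.up x.2 * g (x.1 ∪ x.2) := by
        rw [sq, SieveW.U, sum_mul_sum, h𝓘, sum_product]
        refine sum_congr rfl fun S _ => sum_congr rfl fun T _ => ?_
        rw [← hu]; ring
    _ ≤ ∑ x ∈ 𝓘, if x.1 ∪ x.2 ∈ lev P (D ^ 2) then g (x.1 ∪ x.2) else 0 := by
        refine sum_le_sum fun x hx => ?_
        simp only [h𝓘, mem_product, mem_powerset] at hx
        by_cases h0 : sv.up x.1 * sv.up x.2 = 0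
        · rw [h0, zero_mul]; split_ifs; exacts [hg0 _, le_rfl]
        rw [if_pos (Err.mem_lev.2 ⟨union_subset hx.1 hx.2, (Mst.prod_union_le' _ _ fun p hp =>
          (hP p (hx.1 hp)).one_le).trans (by
            rw [sq]
            exact Nat.mul_le_mul (sv.supp_up _ hx.1 (left_ne_zero_of_mul h0))
              (sv.supp_up _ hx.2 (right_ne_zero_of_mul h0)))⟩)]
        refine mul_le_of_le_one_left (hg0 _) ((le_abs_self _).trans ?_)
        rw [abs_mul]
        exact mul_le_one₀ (sv.abs_up _) (abs_nonneg _) (sv.abs_up _)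
    _ = ∑ V ∈ lev P (D ^ 2), ∑ x ∈ (𝓘.filter fun x => x.1 ∪ x.2 ∈ lev P (D ^ 2)).filter
          (fun x => x.1 ∪ x.2 = V), g (x.1 ∪ x.2) := by
        rw [← sum_filter, sum_fiberwise_of_maps_to fun x hx => (mem_filter.1 hx).2]
    _ ≤ _ := by
        refine sum_le_sum fun V _ => ?_
        rw [sum_congr rfl fun x hx => by rw [(mem_filter.1 hx).2], sum_const, nsmul_eq_mul]
        refine mul_le_mul_of_nonneg_right ?_ (hg0 V)
        have h1 : ((𝓘.filter fun x => x.1 ∪ x.2 ∈ lev P (D ^ 2)).filter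
            (fun x => x.1 ∪ x.2 = V)).card ≤ (V.powerset ×ˢ V.powerset).card :=
          card_le_card fun x hx => by
            have h := (mem_filter.1 hx).2
            simp only [mem_product, mem_powerset]
            exact ⟨h ▸ subset_union_left, h ▸ subset_union_right⟩
        rw [card_product, card_powerset, ← mul_pow] at h1
        exact_mod_cast h1

namespace ScW

variable {a b : ι → ℕ} {K0 v k w s M1 L u N M : ℕ} {ε Θ η : ℝ}
  (h : ScW a b K0 v k w s M1 L u N M ε Θ η)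
include h

lemma wle : w ≤ w ^ (s * M1) := Nat.le_self_pow (Nat.mul_pos h.hs h.hM).ne' w

lemma Vpos : 0 < Vk a w := by
  have : Nonempty ι := Fintype.card_pos_iff.1 (by have := h.hk; have := h.hk3; omega)
  exact h.hN.Vk_pos (by have := h.hk; have := h.hK; omega) (by have := h.hw; omega)

lemma one_le_Θ : 1 ≤ Θ := (one_le_Th _ _).trans h.hΘ

lemma pow_le {j : ℕ} (hj : j ≤ 2) : Th w (w ^ (s * M1)) ^ j ≤ Θ ^ 2 :=
  (pow_le_pow_left₀ (zero_le_one.trans (one_le_Th _ _)) h.hΘ j).trans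
    (pow_le_pow_right₀ h.one_le_Θ hj)

lemma big {n : ℕ} (hn : n ∈ Ico N (N + M)) (x : ι) : w ^ (s * M1) < a x * n + b x := by
  have h1 := h.hlo
  have h2 := Nat.le_mul_of_pos_left n (h.hN.pos x)
  have := (mem_Ico.1 hn).1
  omega

lemma small {n : ℕ} (hn : n ∈ Ico N (N + M)) (x : ι) : a x * n + b x ≤ w ^ (u + 1) :=
  le_trans (Nat.add_le_add_right (Nat.mul_le_mul_left _ (mem_Ico.1 hn).2.le) _) (h.hhi x)

lemma nd {n : ℕ} (hn : n ∈ Ico N (N + M)) {x : ι} (hx : th (a x * n + b x) ≠ 0) {p : ℕ}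
    (hp : p.Prime) (hp' : p ≤ w ^ (s * M1)) : ¬ p ∣ a x * n + b x := fun hd => by
  have := (Nat.prime_dvd_prime_iff_eq hp (prime_of_th hx)).1 hd
  have := h.big hn x
  omega

lemma th_le {n : ℕ} (hn : n ∈ Ico N (N + M)) (x : ι) :
    th (a x * n + b x) ≤ (u + 1) * Real.log w := by
  refine (Err.th_le_log (h.small hn x)).trans_eq ?_
  rw [Nat.cast_pow, Real.log_pow]; push_cast; ring

lemma lev1 : w ^ s * (w ^ (s * M1)) ^ 2 ≤ w ^ L := by
  rw [← pow_mul, ← pow_add, h.hL, mul_comm _ 2]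

lemma lev2 : (w ^ (s * M1)) ^ 2 ≤ w ^ (2 * (s * M1)) := by
  rw [← pow_mul, mul_comm _ 2]

lemma est0 (sv : SieveW (GP a w) (w ^ s) (k + 3) ε) (J : ℕ) :
    ∑ n ∈ Ico N (N + M), sv.U (fun p => ev a b univ p n) *
      Fw a b w s J (w ^ (s * M1)) univ n ^ 2 ≤
      M * Vk a w * (JJ w s J (w ^ (s * M1)) (univ : Finset ι) + 2 * η) := by
  have h1 := pMst ι a b K0 v k w _ _ _ _ _ _ (Ico N (N + M)) (fun _ => 1) ∅ univ
    (M : ℝ) ε Θ (fun _ => 1) sv (yI w s J (w ^ (s * M1)) univ) h.hN h.hk h.hk3 h.hK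
    h.hvw h.hw h.wle le_rfl (by simp) (by simp) (by positivity) h.hε h.hΘ
    (by simp) (fun T hT c _ => by
      have hT' : ∀ p ∈ T, p.Prime := fun p hp =>
        (mem_GP.1 (mem_powerset.1 (mem_filter.1 hT).1 hp)).2.1
      have h2 := count_class (q := ∏ p ∈ T, p) (prod_pos fun p hp => (hT' p hp).pos) c
        (show N ≤ N + M by omega)
      refine le_trans (le_of_eq ?_) h2
      simp only [one_mul, card_empty, Nat.cast_zero, sub_zero]
      congr 2
      rw [prod_congr rfl fun p hp => by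
        rw [div_self (show (p : ℝ) ≠ 0 by exact_mod_cast (hT' p hp).ne_zero)], prod_div_distrib,
        prod_const_one]
      push_cast; ring) (fun _ => zero_le_one)
    (fun U _ => (abs_yI_le _ _ _ _ _ _).trans (h.pow_le (by simp)))
    (fun U hU h0 => yI_supp hU h0) h.lev2 h.hew h.lev1
  have e1 : ∏ p ∈ GP a w, (p : ℝ) / (p - ((∅ : Finset ι).card : ℕ)) = 1 :=
    prod_eq_one fun p hp => by
      rw [card_empty, Nat.cast_zero, sub_zero,
        div_self (show (p : ℝ) ≠ 0 by exact_mod_cast (mem_GP.1 hp).2.1.ne_zero)]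
  rw [e1] at h1
  simp only [one_mul, mul_one] at h1
  have h2 := mul_le_mul_of_nonneg_left h.hδ
    (show 0 ≤ (M : ℝ) * Vk a w by have := h.Vpos; positivity)
  have h3 := h.hE0
  have h4 := (abs_le.1 h1).2
  unfold Fw JJ
  linarith

lemma est1 (sv : SieveW (GP a w) (w ^ s) (k + 3) ε) (J : ℕ) (x : ι) :
    M * Vk a w * (VV w)⁻¹ * (JJ w s J (w ^ (s * M1)) ({x}ᶜ : Finset ι) - 2 * η) ≤
    ∑ n ∈ Ico N (N + M), th (a x * n + b x) * (sv.U (fun p => ev a b univ p n) *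
      Fw a b w s J (w ^ (s * M1)) univ n ^ 2) := by
  obtain ⟨E, h1, h2, h3⟩ := h.hE1 x
  have hp0 : 0 ≤ ∏ p ∈ (a x).primeFactors, (p : ℝ) / (p - 1) := prod_nonneg fun p hp => by
    have : (2 : ℝ) ≤ p := by exact_mod_cast (Nat.prime_of_mem_primeFactors hp).two_le
    exact div_nonneg (by linarith) (by linarith)
  have h4 := pMst ι a b K0 v k w _ _ _ _ _ _ (Ico N (N + M))
    (fun n => th (a x * n + b x)) {x} {x}ᶜ
    ((M : ℝ) * ∏ p ∈ (a x).primeFactors, (p : ℝ) / (p - 1)) ε Θ E sv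
    (yI w s J (w ^ (s * M1)) {x}ᶜ) h.hN h.hk h.hk3 h.hK
    h.hvw h.hw h.wle le_rfl (by simp) disjoint_compl_right (by positivity) h.hε h.hΘ
    (fun n hn h0 p hp l hl => by
      rw [mem_singleton.1 hl]; exact h.nd hn h0 (mem_GP.1 hp).2.1 (mem_GP.1 hp).1)
    (fun T hT c hc => by
      simpa only [card_singleton, Nat.cast_one] using
        h1 T hT c fun p hp => hc p hp x (mem_singleton_self x)) h2
    (fun U _ => (abs_yI_le _ _ _ _ _ _).trans (h.pow_le (by simp)))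
    (fun U hU h0 => yI_supp hU h0) h.lev2 h.hew h.lev1
  have e1 : (M : ℝ) * (∏ p ∈ (a x).primeFactors, (p : ℝ) / (p - 1)) *
      (∏ p ∈ GP a w, (p : ℝ) / (p - (({x} : Finset ι).card : ℕ))) * Vk a w =
      M * Vk a w * (VV w)⁻¹ := by
    rw [card_singleton, Nat.cast_one, mul_assoc (M : ℝ),
      h.hN.prod_split x h.hvw (fun p => (p : ℝ) / (p - 1)), VV,
      ← prod_inv_distrib, mul_right_comm]
    congr 1
    refine prod_congr rfl fun p hp => ?_
    have := PP_two hp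
    have h5 : (p : ℝ) - 1 ≠ 0 := by linarith
    field_simp
  rw [e1] at h4
  have hκ : 1 ≤ (VV w)⁻¹ := (one_le_inv₀ (VV_pos w)).2 (VV_le_one w)
  have h5 : 0 ≤ (M : ℝ) * Vk a w := by have := h.Vpos; positivity
  have h6 := mul_le_mul_of_nonneg_left h.hδ
    (show 0 ≤ (M : ℝ) * Vk a w * (VV w)⁻¹ by positivity)
  have h7 := mul_le_mul_of_nonneg_left hκ (mul_nonneg h.hη h5)
  have h8 := (abs_le.1 h4).1
  have e : ∑ n ∈ Ico N (N + M), th (a x * n + b x) * (sv.U (fun p => ev a b univ p n) *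
      Fw a b w s J (w ^ (s * M1)) univ n ^ 2) =
      ∑ n ∈ Ico N (N + M), th (a x * n + b x) * (sv.U (fun p => ev a b univ p n) *
      Fw a b w s J (w ^ (s * M1)) {x}ᶜ n ^ 2) := by
    refine sum_congr rfl fun n hn => ?_
    by_cases h0 : th (a x * n + b x) = 0
    · rw [h0, zero_mul, zero_mul]
    rw [Fw_collapse a b w s J _ (subset_univ {x}ᶜ) fun l _ hl p hp => by
      have : l = x := by simpa using hl
      rw [this]; exact h.nd hn h0 (PP_prime hp) (mem_PP.1 hp).2.1]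
  rw [e]
  unfold Fw JJ
  linarith

lemma mom2 (sv : SieveW (GP a w) (w ^ s) (k + 3) ε) :
    ∑ n ∈ Ico N (N + M), sv.U (fun p => ev a b univ p n) ^ 2 ≤
      2 * M * (CM * (2 * s * Real.log w)) ^ (4 * k) := by
  have hP : ∀ p ∈ GP a w, p.Prime := fun p hp => (mem_GP.1 hp).2.1
  have hD : (w ^ s) ^ 2 = w ^ (2 * s) := by rw [← pow_mul, mul_comm]
  have h2 : 2 ≤ w ^ (2 * s) :=
    le_trans (by have := h.hw; omega) (Nat.le_self_pow (by have := h.hs; omega) w)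
  obtain ⟨h3, h4⟩ := pErr0 (GP a w) (w ^ (2 * s)) (4 * k) hP h2
  have e : Real.log (w ^ (2 * s) : ℕ) = 2 * s * Real.log w := by
    rw [Nat.cast_pow, Real.log_pow]; push_cast; ring
  rw [e] at h3 h4
  have h5 : ((w ^ (2 * s) : ℕ) : ℝ) ≤ M := by exact_mod_cast h.hM2
  have h6 : 0 ≤ (CM * (2 * s * Real.log w)) ^ (4 * k) := by
    have := one_le_CM; have := Real.log_natCast_nonneg w; positivity
  calc _ ≤ ∑ n ∈ Ico N (N + M), ∑ V ∈ lev (GP a w) (w ^ (2 * s)),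
        (4 : ℝ) ^ V.card * ∏ p ∈ V, ev a b univ p n :=
        sum_le_sum fun n _ => hD ▸ U_sq_le hP sv n
    _ ≤ ∑ V ∈ lev (GP a w) (w ^ (2 * s)), (M * (((4 * k : ℕ) : ℝ) ^ V.card * ∏ p ∈ V, 1 / (p : ℝ)) +
        ((4 * k : ℕ) : ℝ) ^ V.card) := by
        rw [sum_comm]
        refine sum_le_sum fun V hV => ?_
        rw [← mul_sum]
        refine (mul_le_mul_of_nonneg_left (sum_ev_le
          (fun p hp => h.hN.good ((Err.mem_lev.1 hV).1 hp)) N M) (by positivity)).trans_eq ?_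
        rw [h.hk]; push_cast; rw [mul_pow]; ring
    _ ≤ M * (CM * (2 * s * Real.log w)) ^ (4 * k) + M * (CM * (2 * s * Real.log w)) ^ (4 * k) := by
        rw [sum_add_distrib, ← mul_sum]
        exact add_le_add (by gcongr) (h4.trans (by gcongr))
    _ = _ := by ring

end ScW

end Pool.Agent.P.MP_0ad054_nt.MW
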