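import Pool.Agent.P.MP_746f10_nt.Cel.Err

/-! A weighted form of the Bombieri-Vinogradov theorem along one linear form, in a window. -/

namespace Pool.Agent.P.MP_0ad054_nt.MW

open Finset Pool.Agent.P.MP_746f10_nt Pool.Agent.P.MP_746f10_nt.Cel
  Pool.Agent.P.MP_746f10_nt.Cel.Err
open scoped ArithmeticFunction.vonMangoldt

/-- the weighted remainder in the window of length `M` that starts at `N` -/
def S_ErrW : Prop :=
  ∀ a b L u z A : ℕ, 0 < a → a.Coprime b → 2 * L + 4 ≤ u → ∃ C : ℝ, ∀ w N M : ℕ, a + 3 ≤ w →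
    w ^ (2 * L + 3) < N → w ^ L ≤ M → a * (N + M) + b ≤ w ^ (u + 1) →
    ∀ P : Finset ℕ, (∀ p ∈ P, p.Prime ∧ ¬ p ∣ a) → ∃ E : Finset ℕ → ℝ,
      (∀ T ∈ lev P (w ^ L), ∀ c : ℕ, (∀ p ∈ T, ¬ p ∣ a * c + b) →
        |∑ n ∈ Ico N (N + M), th (a * n + b) * (if n ≡ c [MOD ∏ p ∈ T, p] then 1 else 0) -
          (M : ℝ) * (∏ p ∈ a.primeFactors, (p : ℝ) / (p - 1)) *
            ∏ p ∈ T, (p : ℝ) / (p - 1) / p| ≤ E T) ∧ (∀ T, 0 ≤ E T) ∧
      ∑ T ∈ lev P (w ^ L), (z : ℝ) ^ T.card * E T ≤ C * (w : ℝ) ^ (u + 1) / Real.log w ^ A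

lemma shiftW (f : ℕ → ℝ) {a b N M X q : ℕ} (c : ℕ) (ha : 0 < a) (hX : X + 1 = a * N + b) :
    ∑ n ∈ Ico N (N + M), f (a * n + b) * (if n ≡ c [MOD q] then 1 else 0) =
      cs f (X + a * M) (a * q) (a * c + b : ℕ) - cs f X (a * q) (a * c + b : ℕ) := by
  have e : ∀ Y, Icc 1 Y = Ioc 0 Y := fun Y => by ext n; simp only [mem_Icc, mem_Ioc]; omega
  unfold cs
  rw [sum_filter, sum_filter, e, e, ← sum_Ioc_consecutive _ (Nat.zero_le X) (Nat.le_add_right X _),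
    add_sub_cancel_left, ← sum_filter]
  simp only [mul_ite, mul_one, mul_zero]
  rw [← sum_filter]
  refine sum_bij (fun n _ => a * n + b) (fun n hn => ?_) (fun n _ n' _ h => ?_) (fun m hm => ?_)
    fun _ _ => rfl
  · obtain ⟨h1, h2⟩ := mem_filter.1 hn
    obtain ⟨h3, h4⟩ := mem_Ico.1 h1
    have h5 : a * N ≤ a * n := Nat.mul_le_mul_left a h3
    have h6 : a * (n + 1) ≤ a * (N + M) := Nat.mul_le_mul_left a h4
    refine mem_filter.2 ⟨mem_Ioc.2 ⟨by omega, by nlinarith⟩, ?_⟩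
    have := mul_dvd_mul_left (a : ℤ) ((Nat.modEq_iff_dvd).1 h2.symm)
    push_cast
    rwa [show (a : ℤ) * n + b - (a * c + b) = a * (n - c) by ring]
  · exact Nat.eq_of_mul_eq_mul_left ha (by omega)
  · obtain ⟨h1, t, ht⟩ := mem_filter.1 hm
    obtain ⟨h3, h4⟩ := mem_Ioc.1 h1
    push_cast at ht
    have hX' : (X : ℤ) + 1 = a * N + b := by exact_mod_cast hX
    have h3' : (X : ℤ) < m := by exact_mod_cast h3
    have h4' : (m : ℤ) ≤ X + a * M := by exact_mod_cast h4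
    have ha0 : (0 : ℤ) < a := by exact_mod_cast ha
    have h5 : (N : ℤ) ≤ c + q * t := le_of_mul_le_mul_left (by linarith) ha0
    have h6 : (c : ℤ) + q * t < N + M := lt_of_mul_lt_mul_left (by linarith) ha0.le
    obtain ⟨n, hn⟩ := Int.eq_ofNat_of_zero_le (le_trans (Int.natCast_nonneg N) h5)
    refine ⟨n, mem_filter.2 ⟨mem_Ico.2 ⟨by omega, by omega⟩, ?_⟩, ?_⟩
    · exact ((Nat.modEq_iff_dvd).2 ⟨t, by linarith⟩ : c ≡ n [MOD q]).symm
    · have : (a : ℤ) * n + b = m := by rw [← hn]; linarith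
      exact_mod_cast this

lemma err_leW {a b N M X : ℕ} {T : Finset ℕ} (c : ℕ) (ha : 0 < a) (hX : X + 1 = a * N + b)
    (hX1 : 1 ≤ X) (hT : ∀ p ∈ T, p.Prime ∧ ¬ p ∣ a) :
    |∑ n ∈ Ico N (N + M), th (a * n + b) * (if n ≡ c [MOD ∏ p ∈ T, p] then 1 else 0) -
      (M : ℝ) * (∏ p ∈ a.primeFactors, (p : ℝ) / (p - 1)) * ∏ p ∈ T, (p : ℝ) / (p - 1) / p| ≤
    |cs (fun n => Λ n) (X + a * M) (a * ∏ p ∈ T, p) (a * c + b : ℕ) -
        ((X + a * M : ℕ) : ℝ) / (a * ∏ p ∈ T, p).totient| +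
      |cs (fun n => Λ n) X (a * ∏ p ∈ T, p) (a * c + b : ℕ) - (X : ℝ) / (a * ∏ p ∈ T, p).totient| +
      2 * √((X + a * M : ℕ) : ℝ) * Real.log (X + a * M : ℕ) := by
  have s1 := shiftW (fun n => Λ n) (M := M) (q := ∏ p ∈ T, p) c ha hX
  have s2 := shiftW (fun n => Λ n - th n) (M := M) (q := ∏ p ∈ T, p) c ha hX
  have s3 := cs_diff (X + a * M) (a * ∏ p ∈ T, p) (a * c + b : ℕ) (by omega)
  have s4 : 0 ≤ cs (fun n => Λ n - th n) X (a * ∏ p ∈ T, p) (a * c + b : ℕ) :=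
    sum_nonneg fun n _ => sub_nonneg.2 (th_le n)
  have s5 : 0 ≤ ∑ n ∈ Ico N (N + M), (Λ (a * n + b) - th (a * n + b)) *
      (if n ≡ c [MOD ∏ p ∈ T, p] then 1 else 0) :=
    sum_nonneg fun n _ => mul_nonneg (sub_nonneg.2 (th_le _)) (by positivity)
  have s6 : ∑ n ∈ Ico N (N + M), (Λ (a * n + b) - th (a * n + b)) *
      (if n ≡ c [MOD ∏ p ∈ T, p] then 1 else 0) =
      ∑ n ∈ Ico N (N + M), Λ (a * n + b) * (if n ≡ c [MOD ∏ p ∈ T, p] then 1 else 0) -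
      ∑ n ∈ Ico N (N + M), th (a * n + b) * (if n ≡ c [MOD ∏ p ∈ T, p] then 1 else 0) := by
    rw [← sum_sub_distrib]
    exact sum_congr rfl fun n _ => sub_mul _ _ _
  have s7 : (M : ℝ) * (∏ p ∈ a.primeFactors, (p : ℝ) / (p - 1)) * ∏ p ∈ T, (p : ℝ) / (p - 1) / p =
      ((X + a * M : ℕ) : ℝ) / (a * ∏ p ∈ T, p).totient - (X : ℝ) / (a * ∏ p ∈ T, p).totient := by
    rw [mul_assoc, ← main_eq ha hT]
    push_cast
    ring
  rw [s7]
  have a1 := le_abs_self (cs (fun n => Λ n) (X + a * M) (a * ∏ p ∈ T, p) (a * c + b : ℕ) -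
        ((X + a * M : ℕ) : ℝ) / (a * ∏ p ∈ T, p).totient)
  have a2 := neg_abs_le (cs (fun n => Λ n) (X + a * M) (a * ∏ p ∈ T, p) (a * c + b : ℕ) -
        ((X + a * M : ℕ) : ℝ) / (a * ∏ p ∈ T, p).totient)
  have a3 := le_abs_self
    (cs (fun n => Λ n) X (a * ∏ p ∈ T, p) (a * c + b : ℕ) - (X : ℝ) / (a * ∏ p ∈ T, p).totient)
  have a4 := neg_abs_le
    (cs (fun n => Λ n) X (a * ∏ p ∈ T, p) (a * c + b : ℕ) - (X : ℝ) / (a * ∏ p ∈ T, p).totient)
  rw [abs_le]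
  constructor <;> linarith

lemma triv_leW {a b N M Y : ℕ} {T : Finset ℕ} (c : ℕ) (l α : ℝ) (hY : a * (N + M) + b ≤ Y)
    (hT : ∀ p ∈ T, p.Prime) (hq : ∏ p ∈ T, p ≤ M) (hl : Real.log Y ≤ l) (hα : 0 ≤ α) :
    |∑ n ∈ Ico N (N + M), th (a * n + b) * (if n ≡ c [MOD ∏ p ∈ T, p] then 1 else 0) -
      (M : ℝ) * α * ∏ p ∈ T, (p : ℝ) / (p - 1) / p| ≤
      (2 * l + α) * M * (2 ^ T.card * ∏ p ∈ T, 1 / (p : ℝ)) := by
  have hq0 := prod_pos' hT
  have hq1 : (0 : ℝ) < ((∏ p ∈ T, p : ℕ) : ℝ) := by exact_mod_cast hq0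
  have hl0 : 0 ≤ l := (Real.log_natCast_nonneg Y).trans hl
  have c1 := (abs_le.1 (count_class hq0 c (A := N) (B := N + M) (by omega))).2
  have c2 : (1 : ℝ) ≤ M / ((∏ p ∈ T, p : ℕ) : ℝ) := (one_le_div hq1).2 (by exact_mod_cast hq)
  have c3 : (((N + M : ℕ) : ℝ) - N) = M := by push_cast; ring
  rw [c3] at c1
  have hP : 0 ≤ ∏ p ∈ T, 1 / (p : ℝ) := by positivity
  have s1 : 0 ≤ ∑ n ∈ Ico N (N + M), th (a * n + b) *
      (if n ≡ c [MOD ∏ p ∈ T, p] then 1 else 0) :=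
    sum_nonneg fun n _ => mul_nonneg (th_nonneg _) (by positivity)
  have s2 : ∑ n ∈ Ico N (N + M), th (a * n + b) * (if n ≡ c [MOD ∏ p ∈ T, p] then 1 else 0) ≤
      2 * l * M * (2 ^ T.card * ∏ p ∈ T, 1 / (p : ℝ)) := by
    calc _ ≤ ∑ n ∈ Ico N (N + M), l * (if n ≡ c [MOD ∏ p ∈ T, p] then 1 else 0) := by
          refine sum_le_sum fun n hn => mul_le_mul_of_nonneg_right
            ((th_le_log ?_).trans hl) (by positivity)
          have := Nat.mul_le_mul_left a (mem_Ico.1 hn).2.le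
          omega
      _ ≤ l * (2 * (M * ∏ p ∈ T, 1 / (p : ℝ))) := by
          rw [← mul_sum, prod_inv_eq, mul_one_div]
          exact mul_le_mul_of_nonneg_left (by linarith) hl0
      _ = 2 * l * M * (1 * ∏ p ∈ T, 1 / (p : ℝ)) := by ring
      _ ≤ _ := by gcongr; exact one_le_pow₀ (by norm_num)
  have hp2 : ∀ p ∈ T, (2 : ℝ) ≤ p := fun p hp => by exact_mod_cast (hT p hp).two_le
  have s3 : 0 ≤ ∏ p ∈ T, (p : ℝ) / (p - 1) / p :=
    prod_nonneg fun p hp => by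
      have := hp2 p hp
      have : (0 : ℝ) ≤ p - 1 := by linarith
      positivity
  have s4 : ∏ p ∈ T, (p : ℝ) / (p - 1) / p ≤ 2 ^ T.card * ∏ p ∈ T, 1 / (p : ℝ) := by
    rw [← prod_const, ← prod_mul_distrib]
    refine prod_le_prod (fun p hp => ?_) fun p hp => ?_
    · have := hp2 p hp
      have : (0 : ℝ) ≤ p - 1 := by linarith
      positivity
    · have := hp2 p hp
      rw [mul_one_div]
      gcongr
      rw [div_le_iff₀ (by linarith)]
      linarith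
  have s5 : 0 ≤ (M : ℝ) * α * ∏ p ∈ T, (p : ℝ) / (p - 1) / p := by positivity
  have s6 : (M : ℝ) * α * ∏ p ∈ T, (p : ℝ) / (p - 1) / p ≤
      M * α * (2 ^ T.card * ∏ p ∈ T, 1 / (p : ℝ)) := by gcongr
  have s7 : 0 ≤ 2 * l * M * (2 ^ T.card * ∏ p ∈ T, 1 / (p : ℝ)) := by positivity
  rw [abs_le]
  constructor <;> nlinarith

theorem errW (h0 : S_Err0) (hBV : Pool.Agent.P.MP_0ad054_nt.An.S_BV) : S_ErrW := by
  classical
  intro a b L u z A ha hab hu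
  obtain ⟨B, hB⟩ : ∃ B, B = A + (2 * z ^ 2 + 1 + A) := ⟨_, rfl⟩
  obtain ⟨C, hC, hbv⟩ := bv_use hBV L B
  obtain ⟨α, hα⟩ : ∃ α : ℝ, α = ∏ p ∈ a.primeFactors, (p : ℝ) / (p - 1) := ⟨_, rfl⟩
  have hα0 : 0 ≤ α := by
    rw [hα]
    refine prod_nonneg fun p hp => ?_
    have : (2 : ℝ) ≤ p := by exact_mod_cast (Nat.prime_of_mem_primeFactors hp).two_le
    have : (0 : ℝ) ≤ p - 1 := by linarith
    positivity
  refine ⟨(2 * C + 2 * a * (u + 1) * (B + 1).factorial) +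
    (2 * (u + 1) + α) * (CM * (L + 1)) ^ (2 * z ^ 2), fun w N M hw hN1 hDN hY P hP => ?_⟩
  have hw3 : 3 ≤ w := by omega
  have hw0 : (1 : ℝ) < w := by exact_mod_cast (by omega : 1 < w)
  have hl : 1 ≤ Real.log w := by
    rw [Real.le_log_iff_exp_le (by linarith)]
    have : (3 : ℝ) ≤ w := by exact_mod_cast hw3
    linarith [Real.exp_one_lt_d9]
  have hK : a * w ^ L ≤ w ^ (L + 1) := by
    rw [pow_succ']
    exact Nat.mul_le_mul_right _ (by omega)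
  rw [← hα]
  have hrest := fun X => rest_le (a := a) (X := X) (B := B) hu hw3
  have hlogY : Real.log (w ^ (u + 1) : ℕ) ≤ (u + 1) * Real.log w := by
    push_cast
    rw [Real.log_pow]
    push_cast
    exact le_rfl
  have huY : (w : ℝ) ^ u ≤ (w ^ (u + 1) : ℕ) := by
    push_cast
    exact pow_le_pow_right₀ hw0.le (by omega)
  have hcast : (w : ℝ) ^ (u + 1) = ((w ^ (u + 1) : ℕ) : ℝ) := by push_cast; rfl
  rw [hcast]
  generalize w ^ (u + 1) = Y at hY hrest hlogY huY ⊢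
  have haN : N ≤ a * N := Nat.le_mul_of_pos_left N ha
  have haM : M ≤ a * M := Nat.le_mul_of_pos_left M ha
  have hw1 : 1 ≤ w ^ (2 * L + 3) := Nat.one_le_pow _ _ (by omega)
  obtain ⟨X, hX⟩ : ∃ X, X + 1 = a * N + b := ⟨a * N + b - 1, by omega⟩
  have hY' : a * N + a * M + b ≤ Y := by rwa [← mul_add]
  have hX2 : X + a * M ≤ Y := by omega
  have hMY : (M : ℝ) ≤ Y := by exact_mod_cast (by omega : M ≤ Y)
  obtain ⟨err, herr⟩ : ∃ err : Finset ℕ → ℕ → ℝ, ∀ T c, err T c =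
      |∑ n ∈ Ico N (N + M), th (a * n + b) * (if n ≡ c [MOD ∏ p ∈ T, p] then 1 else 0) -
        (M : ℝ) * α * ∏ p ∈ T, (p : ℝ) / (p - 1) / p| := ⟨_, fun _ _ => rfl⟩
  have hmax : ∀ T : Finset ℕ, ∃ c0 : ℕ, ∀ c : ℕ, (∀ p ∈ T, ¬ p ∣ a * c + b) →
      (∀ p ∈ T, ¬ p ∣ a * c0 + b) ∧ err T c ≤ err T c0 := by
    intro T
    by_cases hne : {c : ℕ | ∀ p ∈ T, ¬ p ∣ a * c + b}.Nonempty
    · have hf : (err T '' {c : ℕ | ∀ p ∈ T, ¬ p ∣ a * c + b}).Finite := by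
        refine ((Ico N (N + M)).powerset.finite_toSet.image fun s =>
          |∑ n ∈ s, th (a * n + b) - (M : ℝ) * α * ∏ p ∈ T, (p : ℝ) / (p - 1) / p|).subset ?_
        rintro _ ⟨c, -, rfl⟩
        refine ⟨(Ico N (N + M)).filter fun n => n ≡ c [MOD ∏ p ∈ T, p],
          mem_coe.2 (mem_powerset.2 (filter_subset _ _)), ?_⟩
        simp only [herr, sum_filter, mul_ite, mul_one, mul_zero]
      obtain ⟨c0, h1⟩ := Set.Finite.exists_maximalFor' _ _ hf hne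
      exact ⟨c0, fun c hc => ⟨h1.1, h1.le hc⟩⟩
    · exact ⟨0, fun c hc => absurd ⟨c, hc⟩ hne⟩
  choose c0 hc0 using hmax
  have herr0 : ∀ T c, 0 ≤ err T c := fun T c => by rw [herr]; exact abs_nonneg _
  have pr : ∀ T ∈ lev P (w ^ L), ∀ p ∈ T, p.Prime ∧ ¬ p ∣ a :=
    fun T hT p hp => hP p ((mem_lev.1 hT).1 hp)
  refine ⟨fun T => if ∀ p ∈ T, ¬ p ∣ a * c0 T + b then err T (c0 T) else 0, fun T _ c hc => ?_,
    fun T => ?_, ?_⟩
  · beta_reduce
    rw [← herr, if_pos (hc0 T c hc).1]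
    exact (hc0 T c hc).2
  · beta_reduce
    split_ifs
    exacts [herr0 _ _, le_rfl]
  obtain ⟨r, hr1, hr2⟩ : ∃ r : ℕ → ℤ, (∀ k, IsCoprime (r k) k) ∧ ∀ T ∈ lev P (w ^ L),
      (∀ p ∈ T, ¬ p ∣ a * c0 T + b) → r (a * ∏ p ∈ T, p) = (a * c0 T + b : ℕ) := by
    refine ⟨fun k => if (a * c0 (k / a).primeFactors + b).Coprime k then
      (a * c0 (k / a).primeFactors + b : ℕ) else 1, fun k => ?_, fun T hT h => ?_⟩
    · beta_reduce
      split_ifs with h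
      exacts [Nat.isCoprime_iff_coprime.2 h, isCoprime_one_left]
    · beta_reduce
      rw [Nat.mul_div_cancel_left _ ha, Nat.primeFactors_prod fun p hp => (pr T hT p hp).1, if_pos]
      refine Nat.Coprime.mul_right ?_ (Nat.Coprime.prod_right fun p hp => ?_)
      · rw [Nat.coprime_mul_left_add_left]
        exact hab.symm
      · exact (((pr T hT p hp).1.coprime_iff_not_dvd).2 (h p hp)).symm
  have b1 := hbv w (X + a * M) (a * w ^ L) r (Y : ℝ) hw3 (by omega)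
    (by exact_mod_cast hX2) hK fun k _ => hr1 k
  have b2 := hbv w X (a * w ^ L) r (Y : ℝ) hw3 (by omega)
    (by exact_mod_cast (by omega : X ≤ Y)) hK fun k _ => hr1 k
  have hl0 : 0 < Real.log w := by linarith
  have b3 : ((a * w ^ L : ℕ) : ℝ) * (2 * √((X + a * M : ℕ) : ℝ) * Real.log (X + a * M : ℕ)) ≤
      (2 * a * (u + 1) * (B + 1).factorial) * (Y : ℝ) / Real.log w ^ B :=
    (hrest (X + a * M) hX2).trans (by gcongr)
  have hR : 0 ≤ 2 * √((X + a * M : ℕ) : ℝ) * Real.log (X + a * M : ℕ) :=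
    mul_nonneg (by positivity) (Real.log_natCast_nonneg _)
  have t1 : ∑ T ∈ lev P (w ^ L), (if ∀ p ∈ T, ¬ p ∣ a * c0 T + b then err T (c0 T) else 0) ≤
      (2 * C + 2 * a * (u + 1) * (B + 1).factorial) * Y / Real.log w ^ B := by
    have t := sum_lev_le (D := w ^ L) ha (fun p hp => (hP p hp).1) (fun k =>
      |cs (fun n => Λ n) (X + a * M) k (r k) - ((X + a * M : ℕ) : ℝ) / k.totient| +
      |cs (fun n => Λ n) X k (r k) - (X : ℝ) / k.totient| +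
      2 * √((X + a * M : ℕ) : ℝ) * Real.log (X + a * M : ℕ)) fun k => by positivity
    refine le_trans (sum_le_sum fun T hT => ?_) (t.trans ?_)
    · split_ifs with h
      · rw [herr, hr2 T hT h, hα]
        exact err_leW (c0 T) ha hX (by omega) (pr T hT)
      · positivity
    · rw [sum_add_distrib, sum_add_distrib, sum_const, Nat.card_Icc, Nat.add_sub_cancel,
        nsmul_eq_mul]
      refine (add_le_add (add_le_add b1 b2) b3).trans (le_of_eq ?_)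
      ring
  have t2 : ∀ T ∈ lev P (w ^ L), (if ∀ p ∈ T, ¬ p ∣ a * c0 T + b then err T (c0 T) else 0) ≤
      ((2 * (u + 1) + α) * Real.log w * Y) * (2 ^ T.card * ∏ p ∈ T, 1 / (p : ℝ)) := by
    intro T hT
    split_ifs with h
    · rw [herr]
      refine (triv_leW (Y := Y) (c0 T) ((u + 1) * Real.log w) α hY
        (fun p hp => (pr T hT p hp).1) ((mem_lev.1 hT).2.trans hDN) hlogY hα0).trans ?_
      gcongr
      nlinarith
    · positivity
  have t3 : ∑ T ∈ lev P (w ^ L), ((2 * z ^ 2 : ℕ) : ℝ) ^ T.card * ∏ p ∈ T, 1 / (p : ℝ) ≤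
      (CM * (L + 1)) ^ (2 * z ^ 2) * Real.log w ^ (2 * z ^ 2) := by
    have h2 : 2 ≤ w ^ (L + 1) := le_trans (by omega) (Nat.le_self_pow (by omega) w)
    have t := (h0 P (w ^ (L + 1)) (2 * z ^ 2) (fun p hp => (hP p hp).1) h2).1
    refine le_trans (sum_le_sum_of_subset_of_nonneg (fun T hT => ?_) fun T _ _ => by positivity)
      (t.trans (le_of_eq ?_))
    · exact mem_lev.2 ⟨(mem_lev.1 hT).1,
        (mem_lev.1 hT).2.trans (Nat.pow_le_pow_right (by omega) (by omega))⟩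
    · rw [← mul_pow]
      push_cast
      rw [Real.log_pow]
      push_cast
      ring
  refine (weights (lam := Real.log w ^ (2 * z ^ 2 + 1 + A)) (by positivity) (by positivity)
    (fun T => ?_) t1 t2 t3).trans (le_of_eq ?_)
  · split_ifs
    exacts [herr0 _ _, le_rfl]
  · generalize ((B + 1).factorial : ℝ) = F
    rw [hB]
    field_simp
    ring

end Pool.Agent.P.MP_0ad054_nt.MW
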