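import Pool.Agent.P.MP_0ad054_nt.MW.Core
import Pool.Agent.P.MP_0ad054_nt.MW.Err
import Pool.Agent.P.MP_746f10_nt.Cel.JJP
import Pool.Agent.P.MP_0ad054_nt.An.All

/-! Many points of a window give many primes: normalised systems. -/

set_option linter.unusedSectionVars false

namespace Pool.Agent.P.MP_0ad054_nt.MW

open Finset Filter Pool.Agent.P.MP_746f10_nt Pool.Agent.P.MP_746f10_nt.Cel

variable {ι : Type} [Fintype ι] [DecidableEq ι]

/-- the points of the window at which more than `m` forms are prime -/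
def good (m : ℕ) (a b : ι → ℕ) (N M : ℕ) : Finset ℕ :=
  (Ico N (N + M)).filter fun n => m < (univ.filter fun l => (a l * n + b l).Prime).card

lemma good_ge {m : ℕ} {a b : ι → ℕ} {N M : ℕ} {W : ℕ → ℝ} {l : ℝ} (hl : 0 ≤ l)
    (hW : ∀ n, 0 ≤ W n) (hth : ∀ n ∈ Ico N (N + M), ∀ x, th (a x * n + b x) ≤ l) :
    ∑ x, ∑ n ∈ Ico N (N + M), th (a x * n + b x) * W n ≤
      m * l * ∑ n ∈ Ico N (N + M), W n + Fintype.card ι * l * ∑ n ∈ good m a b N M, W n := by
  rw [sum_comm, good, sum_filter, mul_sum, mul_sum, ← sum_add_distrib]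
  refine sum_le_sum fun n hn => ?_
  rw [← sum_mul]
  have h0 := hW n
  have h1 : ∑ x, th (a x * n + b x) ≤ (univ.filter fun l => (a l * n + b l).Prime).card * l := by
    rw [← sum_filter_of_ne (p := fun l => (a l * n + b l).Prime) fun x _ h => prime_of_th h,
      ← nsmul_eq_mul]
    exact sum_le_card_nsmul _ _ _ fun x _ => hth n hn x
  split_ifs with h
  · have h2 : ((univ.filter fun l => (a l * n + b l).Prime).card : ℝ) ≤ Fintype.card ι := by
      exact_mod_cast card_le_univ _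
    have h3 : 0 ≤ m * l * W n := by positivity
    have h4 := mul_le_mul_of_nonneg_right (h1.trans (mul_le_mul_of_nonneg_right h2 hl)) h0
    linarith
  · have h2 : ((univ.filter fun l => (a l * n + b l).Prime).card : ℝ) ≤ m := by
      exact_mod_cast not_lt.1 h
    have h4 := mul_le_mul_of_nonneg_right (h1.trans (mul_le_mul_of_nonneg_right h2 hl)) h0
    linarith

lemma core {a b : ι → ℕ} {K0 v k w s M1 L u N M m J : ℕ} {ε Θ : ℝ}
    (h : ScW a b K0 v k w s M1 L u N M ε Θ (1 / (10 * 4 ^ k)))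
    (sv : SieveW (GP a w) (w ^ s) (k + 3) ε) (h1 : 4 * 2 ^ J ≤ M1)
    (h2 : 4 * 10 * k * (J + 1) * CM ≤ M1)
    (h4 : 2 * (m + 1) * (u + 1 : ℝ) ≤ k * ((J + 1) ^ 2 * s / (8 * CM))) :
    M * Vk a w ^ 2 ≤ 2 * (k * 4 ^ k * (Θ ^ k * 2 ^ (k * (u + 1))) ^ 2) ^ 2 *
      (CM * (2 * s * Real.log w)) ^ (4 * k) * (good m a b N M).card := by
  have hw := h.hw
  have hCM := one_le_CM
  obtain ⟨k', rfl⟩ : ∃ k', k = k' + 1 := ⟨k - 1, by have := h.hk3; omega⟩
  set R := w ^ (s * M1) with hR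
  have hη : (1 : ℝ) / (10 * 4 ^ (k' + 1)) = 1 / 10 * (1 / 4) ^ (k' + 1) := by
    rw [one_div_pow]; field_simp
  have hR1 : 1 ≤ R := Nat.one_le_pow _ _ (by omega)
  have hRs : w ^ (s * 2 ^ J) ≤ R :=
    Nat.pow_le_pow_right (by omega) (Nat.mul_le_mul_left _ (by omega))
  have A2 := a2_pos (w := w) (by omega) h.hs J
    (show w ^ s ≤ R from Nat.pow_le_pow_right (by omega) (Nat.le_mul_of_pos_right _ h.hM))
  have hg := gain (w := w) (J := J) (by omega) h.hs hRs
  have lw : 0 < Real.log w := Real.log_pos (by exact_mod_cast (by omega : 1 < w))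
  have hV := VV_pos w
  have hs' : (0 : ℝ) < s := by exact_mod_cast h.hs
  set α1 := a1 w s J R ^ 2
  set α2 := a2 w s J R
  have four : ∀ I : Finset ι, (1 / 4 : ℝ) ^ (k' + 1) ≤ JJ w s J R I :=
    fun I => h.hk ▸ JJ_ge_four (by omega) s J hR1 I
  have j0 : JJ w s J R (univ : Finset ι) ≤ α2 * α2 ^ k' := by
    refine (JJ_le _ _ _ _ _).trans (le_of_eq ?_)
    rw [compl_univ, card_empty, card_univ, h.hk]; ring
  have c1 : ∀ x : ι, ({x}ᶜ : Finset _).card = k' := fun x => by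
    rw [card_compl, h.hk, card_singleton]; omega
  have j1 : ∀ x : ι, JJ w s J R ({x}ᶜ : Finset _) ≤ α1 * α2 ^ k' := fun x => by
    refine (JJ_le _ _ _ _ _).trans (le_of_eq ?_)
    rw [compl_compl, card_singleton, c1]; ring
  have j1' : ∀ x : ι, (1 - 1 / 10) * (α1 * α2 ^ k') ≤ JJ w s J R ({x}ᶜ : Finset _) := fun x => by
    refine le_trans (le_of_eq ?_) (pJJ _ w s J M1 10 {x}ᶜ (by omega) h.hs (by omega) (by simp) h1
      (by rw [h.hk]; exact_mod_cast h2))
    rw [compl_compl, card_singleton, c1]; push_cast; ring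
  have hM0 : (0 : ℝ) < M := by exact_mod_cast lt_of_lt_of_le (pow_pos (by omega) _) h.hM2
  have hx : 0 < (M : ℝ) * Vk a w := mul_pos hM0 h.Vpos
  have hκ : 0 < (VV w)⁻¹ := inv_pos.2 hV
  set U : ℕ → ℝ := fun n => sv.U fun p => ev a b univ p n with hU
  have hU0 : ∀ n, 0 ≤ U n := fun n => sv.U_nonneg fun p _ => ⟨ev_nonneg _ _ _, ev_le_one _ _ _⟩
  set l : ℝ := (u + 1) * Real.log w with hl
  have l0 : 0 < l := by positivity
  set α : ℝ := M * Vk a w * (α2 * α2 ^ k' * (6 / 5)) with hα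
  have b0 : ∑ n ∈ Ico N (N + M), U n * Fw a b w s J R univ n ^ 2 ≤ α :=
    (h.est0 sv J).trans (mul_le_mul_of_nonneg_left (by
      have := (four univ).trans j0
      rw [hη]; linarith) hx.le)
  have b1 : ∀ x, M * Vk a w * (VV w)⁻¹ * (α1 * α2 ^ k' * (7 / 10)) ≤
      ∑ n ∈ Ico N (N + M), th (a x * n + b x) * (U n * Fw a b w s J R univ n ^ 2) := fun x =>
    le_trans (mul_le_mul_of_nonneg_left (by
      have := (four {x}ᶜ).trans (j1 x)
      have := j1' x
      rw [hη]; linarith) (by positivity)) (h.est1 sv J x)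
  have b2 : (m + 1) * l * α ≤
      (k' + 1 : ℕ) * (M * Vk a w * (VV w)⁻¹ * (α1 * α2 ^ k' * (7 / 10))) := by
    calc _ = 3 / 5 * (2 * (m + 1) * (u + 1)) * (Real.log w * α2 * (M * Vk a w * α2 ^ k')) := by
          rw [hα, hl]; ring
      _ ≤ 7 / 10 * ((k' + 1 : ℕ) * ((J + 1) ^ 2 * s / (8 * CM))) *
          (Real.log w * α2 * (M * Vk a w * α2 ^ k')) :=
          mul_le_mul_of_nonneg_right (mul_le_mul (by norm_num) h4 (by positivity) (by norm_num))
            (by positivity)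
      _ = (k' + 1 : ℕ) * (M * Vk a w * (VV w)⁻¹ * ((J + 1) ^ 2 * (VV w * Real.log w * s) /
          (8 * CM) * α2 * α2 ^ k' * (7 / 10))) := by field_simp
      _ ≤ _ := by gcongr
  have b3 := good_ge (m := m) l0.le (W := fun n => U n * Fw a b w s J R univ n ^ 2)
    (fun n => mul_nonneg (hU0 n) (sq_nonneg _)) fun n hn x => h.th_le hn x
  have b4 := card_nsmul_le_sum univ _ _ fun x _ => b1 x
  rw [card_univ, h.hk, nsmul_eq_mul] at b4
  rw [h.hk] at b3
  have b5 : α ≤ (k' + 1 : ℕ) * ∑ n ∈ good m a b N M, U n * Fw a b w s J R univ n ^ 2 := by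
    refine le_of_mul_le_mul_left ?_ l0
    have := mul_le_mul_of_nonneg_left b0 (show 0 ≤ m * l by positivity)
    linarith
  set F : ℝ := Θ ^ (k' + 1) * 2 ^ ((k' + 1) * (u + 1)) with hF
  have b6 : ∑ n ∈ good m a b N M, U n * Fw a b w s J R univ n ^ 2 ≤
      F ^ 2 * ∑ n ∈ good m a b N M, U n := by
    rw [mul_sum]
    refine sum_le_sum fun n hn => ?_
    have hn' := (mem_filter.1 hn).1
    have := abs_Fw_le a b (show 2 ≤ w by omega) s J R univ
      (fun l => ((Nat.zero_le _).trans_lt (h.big hn' l)).ne') (h.small hn') h.hΘ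
    rw [h.hk] at this
    rw [mul_comm, ← sq_abs]
    exact mul_le_mul_of_nonneg_right (pow_le_pow_left₀ (abs_nonneg _) this 2) (hU0 n)
  have b7 : (∑ n ∈ good m a b N M, U n) ^ 2 ≤ (good m a b N M).card *
      (2 * M * (CM * (2 * s * Real.log w)) ^ (4 * (k' + 1))) :=
    sq_sum_le_card_mul_sum_sq.trans (mul_le_mul_of_nonneg_left ((sum_le_sum_of_subset_of_nonneg
      (filter_subset _ _) fun _ _ _ => sq_nonneg _).trans (h.mom2 sv)) (by positivity))
  have b8 : M * Vk a w ≤ (k' + 1 : ℕ) * 4 ^ (k' + 1) * F ^ 2 * ∑ n ∈ good m a b N M, U n := by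
    have e1 : M * Vk a w * (1 / 4) ^ (k' + 1) ≤ α := by
      have := (four univ).trans j0
      have : 0 < α2 * α2 ^ k' := by positivity
      rw [hα]; gcongr; linarith
    have e2 := e1.trans (b5.trans (mul_le_mul_of_nonneg_left b6 (by positivity)))
    rw [one_div_pow, mul_one_div, div_le_iff₀ (by positivity)] at e2
    exact e2.trans_eq (by ring)
  refine le_of_mul_le_mul_left ?_ hM0
  calc _ = (M * Vk a w) ^ 2 := by ring
    _ ≤ ((k' + 1 : ℕ) * 4 ^ (k' + 1) * F ^ 2 * ∑ n ∈ good m a b N M, U n) ^ 2 := by gcongr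
    _ = ((k' + 1 : ℕ) * 4 ^ (k' + 1) * F ^ 2) ^ 2 * (∑ n ∈ good m a b N M, U n) ^ 2 := by ring
    _ ≤ ((k' + 1 : ℕ) * 4 ^ (k' + 1) * F ^ 2) ^ 2 * ((good m a b N M).card *
      (2 * M * (CM * (2 * s * Real.log w)) ^ (4 * (k' + 1)))) := by gcongr
    _ = _ := by ring

/-- the window theorem for normalised systems -/
def S_WinN : Prop :=
  ∀ m : ℕ, ∃ k K g j : ℕ, 0 < k ∧ ∀ (a b : Fin k → ℕ) (v B : ℕ), Nrm a b K v →
    ∀ᶠ w : ℕ in atTop, ∀ N M : ℕ, w ^ g < N → (w : ℝ) ^ (g + 2) / Real.log w ^ B ≤ M →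
      (∀ l, a l * (N + M) + b l ≤ w ^ (g + 2)) → M / Real.log w ^ j ≤ (good m a b N M).card

open Fin' in
theorem winN : S_WinN := by
  intro m
  obtain ⟨c0, hc0⟩ : ∃ c0 : ℕ, CM ≤ c0 := ⟨_, Nat.le_ceil _⟩
  have hCM := one_le_CM
  have hc01 : 1 ≤ c0 := by exact_mod_cast hCM.trans hc0
  obtain ⟨J, hJd⟩ : ∃ J, J = 7040 * (m + 1) * c0 ^ 2 := ⟨_, rfl⟩
  have hJ2 : 2 ≤ J := by
    have : 1 ≤ (m + 1) * c0 ^ 2 := Nat.mul_pos (by positivity) (by positivity)
    rw [hJd]; linarith only [this]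
  obtain ⟨k, hk⟩ : ∃ k, k = 2 ^ J := ⟨_, rfl⟩
  have hk4 : 4 ≤ k := hk ▸ (Nat.pow_le_pow_right two_pos hJ2 : 2 ^ 2 ≤ 2 ^ J)
  obtain ⟨k0, hk0⟩ := exists_sieve (k + 3) (by positivity)
  obtain ⟨M1, hM1⟩ : ∃ M1, M1 = 4 * 10 * k * (J + 1) * c0 := ⟨_, rfl⟩
  have hkM : 4 * k ≤ M1 := by
    have : 1 ≤ (J + 1) * c0 := Nat.mul_pos (by positivity) hc01
    rw [hM1]; nlinarith only [this]
  obtain ⟨m', hm'⟩ := pow_le (60 * 4 ^ k) (c0 * M1 * (4 * k0 + 6)) (c0 * M1 * 4) (5 * k + 8)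
  obtain ⟨s, hs⟩ : ∃ s, s = 4 * (k0 + m') + 6 := ⟨_, rfl⟩
  obtain ⟨L, hL⟩ : ∃ L, L = s + 2 * (s * M1) := ⟨_, rfl⟩
  obtain ⟨u, hu⟩ : ∃ u, u = 2 * L + 4 := ⟨_, rfl⟩
  obtain ⟨Θ, hΘ⟩ : ∃ Θ : ℝ, Θ = c0 * (s * M1 : ℕ) := ⟨_, rfl⟩
  refine ⟨k, 2 * (k + 3), 2 * L + 3, 8 * k + 1, by omega, fun a b v B hN => ?_⟩
  rw [show 2 * L + 3 + 2 = u + 1 by omega]
  have hcard : Fintype.card (Fin k) = k := Fintype.card_fin k
  have : Nonempty (Fin k) := Fintype.card_pos_iff.1 (by omega)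
  have hsM : s ≤ s * M1 := Nat.le_mul_of_pos_right _ (by omega)
  have hm2 : 60 * 4 ^ k * Θ ^ (5 * k + 8) ≤ 2 ^ m' := by
    rw [show c0 * M1 * (4 * k0 + 6) + c0 * M1 * 4 * m' = c0 * (s * M1) by rw [hs]; ring] at hm'
    rw [hΘ]; exact_mod_cast hm'
  have hΘ0 : 0 ≤ Θ := by rw [hΘ]; positivity
  obtain ⟨η, hη⟩ : ∃ η : ℝ, η = 1 / (10 * 4 ^ k) := ⟨_, rfl⟩
  have hη0 : 0 < η := by rw [hη]; positivity
  obtain ⟨z, hz⟩ : ∃ z, z = k * 2 ^ (2 * k + 1) := ⟨_, rfl⟩
  choose C hC using fun x => errW pErr0 An.bv_all (a x) (b x) L u z (B + (2 * k + 1)) (hN.pos x)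
    (hN.cop x) hu.ge
  filter_upwards [eventually_ge_atTop (v + 3 + 3 * (2 * (s * M1))),
    tendsto_natCast_atTop_atTop.eventually_ge_atTop
      (2 * Θ ^ (5 * k + 8) * (10 * (2 * (s * M1) : ℕ) + 20 * (k : ℝ) ^ 2) / η),
    ev_pow (Θ ^ (5 * k + 8) * (CM * L) ^ z * CM ^ (2 * k) / η) (z + 2 * k),
    eventually_all.2 fun x => ev_log (Θ ^ (5 * k + 8) * |C x| * CM ^ (2 * k) / η), ev_pow 1 B,
    ev_log (2 * (k * 4 ^ k * (Θ ^ k * 2 ^ (k * (u + 1))) ^ 2) ^ 2 * (CM * (2 * s)) ^ (4 * k) *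
      CM ^ (4 * k))] with w w1 w2 w3 w5 w6 w7 N M hlo hM hhi
  have hw' : (3 : ℝ) ≤ w := by exact_mod_cast (by omega : 3 ≤ w)
  have lw : 0 < Real.log w := Real.log_pos (by linarith)
  have hV := Vk_ge' hN (by omega) (show 2 ≤ w by omega)
  rw [hcard] at hV
  have hMu : (w : ℝ) ^ u ≤ M := by
    refine le_trans ?_ hM
    rw [le_div_iff₀ (by positivity), pow_succ]
    rw [one_mul] at w6
    gcongr
  have hMu' : w ^ u ≤ M := by exact_mod_cast hMu
  have hM0 : (0 : ℝ) ≤ M := Nat.cast_nonneg M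
  obtain ⟨sv⟩ := hk0 m' w (GP a w) (by omega) fun p hp => ⟨(mem_GP.1 hp).2.1, (mem_GP.1 hp).1⟩
  rw [← hs] at sv
  have hSc : ScW a b (2 * (k + 3)) v k w s M1 L u N M (1 / 2 ^ m') Θ η :=
    { hN := hN, hk := hcard, hk3 := by omega, hK := le_rfl, hvw := by omega, hw := by omega,
      hs := by omega, hM := by omega, hL := hL, hew := by omega,
      hε := by positivity, hη := hη0.le, hhi := hhi
      hlo := lt_of_le_of_lt (Nat.pow_le_pow_right (by omega) (by omega)) hlo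
      hM2 := le_trans (Nat.pow_le_pow_right (by omega) (by omega)) hMu'
      hΘ := by rw [hΘ]; exact (Th_le_pow (by omega) (by omega)).trans (by gcongr)
      hδ := by
        have h1 : Θ ^ (5 * k + 8) * (3 * (1 / 2 ^ m')) ≤ η / 2 := by
          rw [hη, mul_one_div, mul_div_assoc', div_div, div_le_div_iff₀ (by positivity) (by positivity)]
          linarith
        have h2 : Θ ^ (5 * k + 8) * ((10 * (2 * (s * M1) : ℕ) + 20 * (k : ℝ) ^ 2) / w) ≤
            η / 2 := by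
          rw [div_le_iff₀ hη0] at w2
          rw [mul_div_assoc', div_le_div_iff₀ (by linarith) (by norm_num)]
          linarith
        rw [add_div] at h2
        linarith
      hE0 := by
        have h1 := (pErr0 (GP a (w ^ (s * M1))) (w ^ L) z (fun p hp => (mem_GP.1 hp).2.1)
          (le_trans (by omega) (Nat.le_self_pow (by omega) w))).2
        rw [Nat.cast_pow, Real.log_pow, hz] at h1
        rw [div_mul_eq_mul_div, div_le_iff₀ hη0] at w3
        have h2 : (w : ℝ) ^ L * w ≤ M := by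
          rw [← pow_succ]; exact (pow_le_pow_right₀ (by linarith) (by omega)).trans hMu
        calc _ ≤ Θ ^ (5 * k + 8) * (w ^ L * (CM * (L * Real.log w)) ^ z) := by
              rw [hz]; exact mul_le_mul_of_nonneg_left h1 (by positivity)
          _ = w ^ L * (Θ ^ (5 * k + 8) * (CM * L) ^ z * CM ^ (2 * k) * Real.log w ^ (z + 2 * k)) *
              (1 / (CM * Real.log w) ^ (2 * k)) := by
              simp only [mul_pow, pow_add]; field_simp
          _ ≤ w ^ L * (w * η) * Vk a w := by gcongr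
          _ = η * (w ^ L * w * Vk a w) := by ring
          _ ≤ _ := by
              have : 0 ≤ Vk a w := le_trans (by positivity) hV
              gcongr
      hE1 := fun x => by
        obtain ⟨E, h1, h2, h3⟩ := hC x w N M (by have := hN.le x; omega) hlo
          (le_trans (Nat.pow_le_pow_right (by omega) (by omega)) hMu') (hhi x)
          (GP a (w ^ (s * M1))) fun p hp => ⟨(mem_GP.1 hp).2.1, (mem_GP.1 hp).2.2 x⟩
        refine ⟨E, h1, h2, ?_⟩
        have h4 := w5 x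
        rw [div_le_iff₀ hη0] at h4
        rw [hz] at h3
        calc _ ≤ Θ ^ (5 * k + 8) * (|C x| * w ^ (u + 1) / Real.log w ^ (B + (2 * k + 1))) :=
              mul_le_mul_of_nonneg_left (h3.trans (by gcongr; exact le_abs_self _)) (by positivity)
          _ = Θ ^ (5 * k + 8) * |C x| * CM ^ (2 * k) * (w ^ (u + 1) / Real.log w ^ B / Real.log w *
              (1 / (CM * Real.log w) ^ (2 * k))) := by
              simp only [mul_pow, pow_add, pow_one]; field_simp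
          _ ≤ Real.log w * η * (M / Real.log w * (1 / (CM * Real.log w) ^ (2 * k))) := by
              gcongr
          _ = η * (M * (1 / (CM * Real.log w) ^ (2 * k))) := by field_simp
          _ ≤ _ := by gcongr }
  rw [hη] at hSc
  have hc := core (m := m) hSc sv (J := J) (by omega) (by rw [hM1]; push_cast; gcongr; norm_num) (by
    have h1 : u + 1 ≤ 11 * (s * M1) := by omega
    have h2 : (u + 1 : ℝ) ≤ 11 * (s * M1) := by exact_mod_cast h1
    have h5 : (0 : ℝ) < c0 := by exact_mod_cast hc01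
    have h3 : (7040 * (m + 1) * c0 ^ 2 : ℝ) ≤ J + 1 := by rw [hJd]; push_cast; linarith
    calc _ ≤ 2 * (m + 1) * (11 * (s * M1) : ℝ) := by gcongr
      _ = k * ((J + 1) * (7040 * (m + 1) * c0 ^ 2) * s / (8 * c0)) := by
          rw [hM1]; push_cast; field_simp; ring
      _ ≤ _ := by rw [sq ((J : ℝ) + 1)]; gcongr)
  rw [div_le_iff₀ (by positivity)]
  calc (M : ℝ) = M * (1 / (CM * Real.log w) ^ (2 * k)) ^ 2 * (CM * Real.log w) ^ (4 * k) := by
        rw [show 4 * k = 2 * k * 2 by ring, pow_mul _ (2 * k)]; field_simp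
    _ ≤ M * Vk a w ^ 2 * (CM * Real.log w) ^ (4 * k) := by gcongr
    _ ≤ _ := mul_le_mul_of_nonneg_right hc (by positivity)
    _ = (good m a b N M).card * (2 * (k * 4 ^ k * (Θ ^ k * 2 ^ (k * (u + 1))) ^ 2) ^ 2 *
        (CM * (2 * s)) ^ (4 * k) * CM ^ (4 * k) * Real.log w ^ (8 * k)) := by
        rw [show 8 * k = 4 * k + 4 * k by ring, pow_add, ← mul_assoc CM, mul_pow (CM * (2 * s)),
          mul_pow CM (Real.log w)]; ring
    _ ≤ _ := by rw [pow_succ' _ (8 * k)]; gcongr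

end Pool.Agent.P.MP_0ad054_nt.MW
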